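import Mathlib

set_option autoImplicit false

namespace Pool.Agent.Results.MP_b6be33_co.Main

/-- The assertion of Q1. An isomorphism-permutation of `G` is an isomorphism from `G` onto its
complement `Gᶜ`; triangles are the 3-cliques. -/
def Assertion : Prop :=
  ∀ (V : Type) [Finite V] (G : SimpleGraph V) (k : ℕ),
    Nonempty (G ≃g Gᶜ) →
    (∃ d : ℕ, ∀ v : V, (G.neighborSet v).ncard = d) →
    Nat.card V = 4 * k + 1 →
    ∀ v : V, {t : Finset V | G.IsNClique 3 t ∧ v ∈ t}.ncard = k * (k - 1) →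
      ∃ P : G ≃g Gᶜ, P v = v

/-- rows of the adjacency matrix as bit masks -/
def row (i : Fin 9) : ℕ :=
  ([170, 197, 114, 305, 396, 77, 294, 275, 216] : List ℕ).getD i.val 0

/-- the graph on nine vertices -/
def G9 : SimpleGraph (Fin 9) where
  Adj i j := (row i).testBit j.val = true
  symm := ⟨by unfold row; decide⟩
  loopless := ⟨by unfold row; decide⟩

instance : DecidableRel G9.Adj := fun i j => inferInstanceAs (Decidable ((row i).testBit j.val = true))

/-- an isomorphism onto the complement -/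
def p9 : Equiv.Perm (Fin 9) where
  toFun := ![0, 2, 3, 4, 1, 6, 7, 8, 5]
  invFun := ![0, 4, 1, 2, 3, 8, 5, 6, 7]
  left_inv := by decide
  right_inv := by decide

theorem p9_iso : ∀ u v : Fin 9, G9ᶜ.Adj (p9 u) (p9 v) ↔ G9.Adj u v := by
  decide

/-- Q1 is false, by a 4-regular self-complementary graph on 9 vertices. -/
theorem result : ¬ Assertion := by
  intro h
  have hiso : Nonempty (G9 ≃g G9ᶜ) := ⟨⟨p9, fun {u v} => p9_iso u v⟩⟩
  have hreg : ∃ d : ℕ, ∀ v : Fin 9, (G9.neighborSet v).ncard = d := by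
    refine ⟨4, fun v => ?_⟩
    rw [Set.ncard_eq_toFinset_card']
    revert v
    decide
  have htri : {t : Finset (Fin 9) | G9.IsNClique 3 t ∧ (1 : Fin 9) ∈ t}.ncard = 2 * (2 - 1) := by
    have : {t : Finset (Fin 9) | G9.IsNClique 3 t ∧ (1 : Fin 9) ∈ t}
        = (((Finset.univ : Finset (Fin 9)).powersetCard 3).filter
          (fun t => (∀ a ∈ t, ∀ b ∈ t, a ≠ b → G9.Adj a b) ∧ (1 : Fin 9) ∈ t) :
            Finset (Finset (Fin 9))) := by
      ext t
      simp only [Set.mem_ofPred_eq, Finset.coe_filter, Finset.mem_powersetCard,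
        Finset.subset_univ, true_and, SimpleGraph.isNClique_iff, SimpleGraph.isClique_iff,
        Set.Pairwise, Finset.mem_coe]
      constructor
      · rintro ⟨⟨h1, h2⟩, h3⟩
        exact ⟨h2, fun a ha b hb hab => h1 ha hb hab, h3⟩
      · rintro ⟨h2, h1, h3⟩
        exact ⟨⟨fun a ha b hb hab => h1 ha hb hab, h2⟩, h3⟩
    rw [this, Set.ncard_coe_finset]
    decide +kernel
  obtain ⟨P, hP⟩ := h (Fin 9) G9 2 hiso hreg (by simp) 1 htri
  -- contradiction
  have hanti : ∀ u v : Fin 9, u ≠ v → (G9.Adj u v ↔ ¬ G9.Adj (P u) (P v)) := by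
    intro u v huv
    have h1 := P.map_adj_iff (v := u) (w := v)
    rw [SimpleGraph.compl_adj] at h1
    constructor
    · intro h2
      exact (h1.mpr h2).2
    · intro h2
      exact h1.mp ⟨fun h3 => huv (P.injective h3), h2⟩
  obtain ⟨u, hu⟩ := P.surjective 3
  have hu1 : u ≠ 1 := by
    rintro rfl
    rw [hP] at hu
    exact absurd hu (by decide)
  have hadj : G9.Adj 1 u := by
    rw [hanti 1 u hu1.symm, hP, hu]
    decide
  have hk : ∀ u : Fin 9, G9.Adj 1 u → ∃ u', G9.Adj 1 u' ∧ G9.Adj u u' := by decide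
  obtain ⟨u', h1, h2⟩ := hk u hadj
  have h3 := (hanti 1 u' (G9.ne_of_adj h1)).mp h1
  rw [hP] at h3
  have h4 := (hanti u u' (G9.ne_of_adj h2)).mp h2
  rw [hu] at h4
  have h5 : P u' ≠ 1 := by
    intro h6
    apply G9.ne_of_adj h1
    apply P.injective
    rw [hP, h6]
  have h7 : P u' ≠ 3 := by
    intro h6
    apply G9.ne_of_adj h2
    apply P.injective
    rw [hu, h6]
  have hfin : ∀ w : Fin 9, w ≠ 1 → w ≠ 3 → ¬ G9.Adj 1 w → G9.Adj 3 w := by decide
  exact h4 (hfin _ h5 h7 h3)

end Pool.Agent.Results.MP_b6be33_co.Main
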